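import Mathlib
import Pool.Agent.Helper947.Crv.OnlyChar
import Pool.Agent.Helper947.Crv.H4
import Pool.Agent.Helper947.Crv.F8
import Pool.Agent.Helper947.Crv.Z5
import Pool.Agent.Helper947.Hil.Final

set_option autoImplicit false

open CategoryTheory CategoryTheory.Limits AlgebraicGeometry
open Pool.Agent.Helper947.Crv

namespace Pool.Agent.Results.MP_c21e2e_ag.CharTwoComponent

theorem charZero_frac :
    CharZero (FractionRing (WittVector 2 (AlgebraicClosure (ZMod 2)))) := by
  obtain ⟨q, hq⟩ := CharP.exists (FractionRing (WittVector 2 (AlgebraicClosure (ZMod 2))))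
  rcases CharP.char_is_prime_or_zero (FractionRing (WittVector 2 (AlgebraicClosure (ZMod 2)))) q
    with h | h
  · exfalso
    have h1 : (q : FractionRing (WittVector 2 (AlgebraicClosure (ZMod 2)))) = 0 :=
      CharP.cast_eq_zero _ q
    have h2 : (q : WittVector 2 (AlgebraicClosure (ZMod 2))) = 0 := by
      apply IsFractionRing.injective (WittVector 2 (AlgebraicClosure (ZMod 2)))
        (FractionRing (WittVector 2 (AlgebraicClosure (ZMod 2))))
      rw [map_natCast, h1, map_zero]
    have h3 : (q : AlgebraicClosure (ZMod 2)) = 0 := by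
      have := congrArg (WittVector.constantCoeff (p := 2) (R := AlgebraicClosure (ZMod 2))) h2
      rwa [map_natCast, map_zero] at this
    have h4 : 2 ∣ q := (CharP.cast_eq_zero_iff (AlgebraicClosure (ZMod 2)) 2 q).1 h3
    have h5 : q = 2 := ((Nat.prime_dvd_prime_iff_eq Nat.prime_two h).1 h4).symm
    subst h5
    exact WittVector.FractionRing.p_nonzero 2 (AlgebraicClosure (ZMod 2)) h1
  · subst h
    exact CharP.charP_to_charZero _

theorem key (𝓗 : HilbertScheme 26 (-738)) (α : AlgebraicClosure (ZMod 2)) (hα : α ^ 4 = α + 1) :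
    ∃ x : HilbPt 26 (-738) (AlgebraicClosure (ZMod 2)), x.I = (fanoCfg α).J0 ∧
      ∀ Z ∈ irreducibleComponents (bc 𝓗 (AlgebraicClosure (ZMod 2))), ptOf 𝓗 x ∈ Z →
        OnlyInChar 𝓗 2 Z := by
  obtain ⟨x, hx⟩ := exists_pt (d := 26) (g := -738) (fanoCfg_good hα)
    (by norm_num) (by rw [fanoE_card]; norm_num)
  refine ⟨x, hx, ?_⟩
  intro Z hZ hxZ
  have hirr : IsIrreducible Z := hZ.1
  have hcl : IsClosed Z := isClosed_of_mem_irreducibleComponents Z hZ
  obtain ⟨η, hη⟩ := QuasiSober.sober hirr hcl
  have := charZero_frac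
  exact ⟨η, hη, main_fano hα 𝓗 x hx _ (WittVector.constantCoeff_surjective 2) _ hxZ hη⟩

theorem exists_alpha : ∃ α : AlgebraicClosure (ZMod 2), α ^ 4 = α + 1 := by
  obtain ⟨α, hα⟩ := IsAlgClosed.exists_root
    (Polynomial.X ^ 4 - Polynomial.X - 1 : Polynomial (AlgebraicClosure (ZMod 2))) (by
      have : (Polynomial.X ^ 4 - Polynomial.X - 1 :
          Polynomial (AlgebraicClosure (ZMod 2))).degree = 4 := by
        compute_degree!
      rw [this]
      norm_num)
  refine ⟨α, ?_⟩
  simp only [Polynomial.IsRoot, Polynomial.eval_sub, Polynomial.eval_pow, Polynomial.eval_X,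
    Polynomial.eval_one] at hα
  linear_combination hα

/-- The Hilbert scheme of curves of degree 26 and arithmetic genus -738 in projective 3-space
(over the integers) exists and has a component which exists only in characteristic 2: all
components of the fibre over the algebraic closure of the field with two elements which contain the
point of the explicit curve given by `fanoCfg α`, where `α ^ 4 = α + 1`. -/
theorem result :
    Nonempty (HilbertScheme 26 (-738)) ∧
    ∀ 𝓗 : HilbertScheme 26 (-738),
      (∃ Z ∈ irreducibleComponents (bc 𝓗 (AlgebraicClosure (ZMod 2))), OnlyInChar 𝓗 2 Z) ∧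
      (∃ α : AlgebraicClosure (ZMod 2), α ^ 4 = α + 1) ∧
      ∀ α : AlgebraicClosure (ZMod 2), α ^ 4 = α + 1 →
        ∃ x : HilbPt 26 (-738) (AlgebraicClosure (ZMod 2)), x.I = (fanoCfg α).J0 ∧
          ∀ Z ∈ irreducibleComponents (bc 𝓗 (AlgebraicClosure (ZMod 2))), ptOf 𝓗 x ∈ Z →
            OnlyInChar 𝓗 2 Z := by
  refine ⟨?_, fun 𝓗 => ⟨?_, exists_alpha, fun α hα => key 𝓗 α hα⟩⟩
  · have h := Pool.Agent.Helper947.Hil.hilbert_scheme_exists 26 739
    norm_num at h
    exact h
  · obtain ⟨α, hα⟩ := exists_alpha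
    obtain ⟨x, -, h⟩ := key 𝓗 α hα
    exact ⟨_, irreducibleComponent_mem_irreducibleComponents (ptOf 𝓗 x),
      h _ (irreducibleComponent_mem_irreducibleComponents _) mem_irreducibleComponent⟩

end Pool.Agent.Results.MP_c21e2e_ag.CharTwoComponent
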