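import Mathlib
import Pool.Agent.Helper947.Crv.OnlyChar
import Pool.Agent.Helper947.Crv.H4
import Pool.Agent.Helper947.Crv.F8
import Pool.Agent.Helper947.Crv.Z5

set_option autoImplicit false

open CategoryTheory CategoryTheory.Limits AlgebraicGeometry
open Pool.Agent.Helper947.Crv

namespace Pool.Agent.Results.MP_c21e2e_ag.OnlyInCharTwo

theorem charZero_frac :
    CharZero (FractionRing (WittVector 2 (AlgebraicClosure (ZMod 2)))) := by
  obtain ⟨q, hq⟩ := CharP.exists (FractionRing (WittVector 2 (AlgebraicClosure (ZMod 2))))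
  rcases CharP.char_is_prime_or_zero (FractionRing (WittVector 2 (AlgebraicClosure (ZMod 2)))) q
    with h | h
  · exfalso
    have h1 : (q : FractionRing (WittVector 2 (AlgebraicClosure (ZMod 2)))) = 0 :=
      CharP.cast_eq_zero _ q
    have h2 : (q : WittVector 2 (AlgebraicClosure (ZMod 2))) = 0 := by
      apply IsFractionRing.injective (WittVector 2 (AlgebraicClosure (ZMod 2)))
        (FractionRing (WittVector 2 (AlgebraicClosure (ZMod 2))))
      rw [map_natCast, h1, map_zero]
    have h3 : (q : AlgebraicClosure (ZMod 2)) = 0 := by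
      have := congrArg (WittVector.constantCoeff (p := 2) (R := AlgebraicClosure (ZMod 2))) h2
      rwa [map_natCast, map_zero] at this
    have h4 : 2 ∣ q := (CharP.cast_eq_zero_iff (AlgebraicClosure (ZMod 2)) 2 q).1 h3
    have h5 : q = 2 := ((Nat.prime_dvd_prime_iff_eq Nat.prime_two h).1 h4).symm
    subst h5
    exact WittVector.FractionRing.p_nonzero 2 (AlgebraicClosure (ZMod 2)) h1
  · subst h
    exact CharP.charP_to_charZero _

/-- The Hilbert scheme of curves of degree 26 and arithmetic genus -738 in projective 3-space has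
components which exist only in characteristic 2: all components of the fibre over the algebraic
closure of the field with two elements which contain the point of the explicit curve given by
`fanoCfg α`, where `α ^ 4 = α + 1`. -/
theorem result :
    (∃ α : AlgebraicClosure (ZMod 2), α ^ 4 = α + 1) ∧
    ∀ (𝓗 : HilbertScheme 26 (-738)) (α : AlgebraicClosure (ZMod 2)), α ^ 4 = α + 1 →
      ∃ x : HilbPt 26 (-738) (AlgebraicClosure (ZMod 2)), x.I = (fanoCfg α).J0 ∧
        (∃ Z ∈ irreducibleComponents (bc 𝓗 (AlgebraicClosure (ZMod 2))), ptOf 𝓗 x ∈ Z) ∧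
        ∀ Z ∈ irreducibleComponents (bc 𝓗 (AlgebraicClosure (ZMod 2))), ptOf 𝓗 x ∈ Z →
          OnlyInChar 𝓗 2 Z := by
  refine ⟨?_, fun 𝓗 α hα => ?_⟩
  · obtain ⟨α, hα⟩ := IsAlgClosed.exists_root
      (Polynomial.X ^ 4 - Polynomial.X - 1 : Polynomial (AlgebraicClosure (ZMod 2))) (by
        have : (Polynomial.X ^ 4 - Polynomial.X - 1 :
            Polynomial (AlgebraicClosure (ZMod 2))).degree = 4 := by
          compute_degree!
        rw [this]
        norm_num)
    refine ⟨α, ?_⟩
    simp only [Polynomial.IsRoot, Polynomial.eval_sub, Polynomial.eval_pow, Polynomial.eval_X,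
      Polynomial.eval_one] at hα
    linear_combination hα
  · obtain ⟨x, hx⟩ := exists_pt (d := 26) (g := -738) (fanoCfg_good hα)
      (by norm_num) (by rw [fanoE_card]; norm_num)
    refine ⟨x, hx, ?_, ?_⟩
    · exact ⟨irreducibleComponent (ptOf 𝓗 x), irreducibleComponent_mem_irreducibleComponents _,
        mem_irreducibleComponent⟩
    · intro Z hZ hxZ
      have hirr : IsIrreducible Z := hZ.1
      have hcl : IsClosed Z := isClosed_of_mem_irreducibleComponents Z hZ
      obtain ⟨η, hη⟩ := QuasiSober.sober hirr hcl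
      have := charZero_frac
      exact ⟨η, hη, main_fano hα 𝓗 x hx _ (WittVector.constantCoeff_surjective 2) _ hxZ hη⟩

end Pool.Agent.Results.MP_c21e2e_ag.OnlyInCharTwo
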